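import Pool.Agent.GBS.Stmts

/-!
# GBS squad, row CGI: the Gauss-Bonnet integral does not depend on the metric
-/

set_option autoImplicit false

noncomputable section

open scoped ContDiff Topology RealInnerProductSpace
open Set MeasureTheory Matrix

namespace Pool.Agent.GBS.H10

open Pool.Agent.RF Pool.Agent.MVS Pool.Agent.GBS

theorem slabMeas : MeasurableSet (slab (Fin 5)) := by
  have h : slab (Fin 5) = {x : E (Fin 5) | 1 < ‖x‖} ∩ {x | ‖x‖ < Real.exp 1} := rfl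
  rw [h]
  exact ((isOpen_lt continuous_const continuous_norm).inter
    (isOpen_lt continuous_norm continuous_const)).measurableSet

theorem slabOm {x : E5} (hx : x ∈ slab (Fin 5)) : x ∈ Om (Fin 5) := by
  intro h0
  have h1 : (1 : ℝ) < ‖x‖ := hx.1
  rw [h0, norm_zero] at h1
  linarith

theorem slabUZ {x : E5} (hx : x ∈ slab (Fin 5)) (t : ℝ) : ((t, x) : Z) ∈ UZ :=
  ⟨mem_univ _, slabOm hx⟩

theorem cgi (trd : TrdStatement) (trt : TrtStatement) (smo : SmoStatement) (fam : FamStatement)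
    (cnv : CnvStatement) (div : DivStatement) (tim : TimStatement) (cal : CalStatement) :
    CgiStatement := by
  intro G₀ G₁ h0 h1
  obtain ⟨H, hF, hH0, hH1⟩ := cnv G₀ G₁ h0 h1
  obtain ⟨hT, -, heul⟩ := fam H hF
  obtain ⟨-, -, hE, hB, htan⟩ := smo _ _ _ _ hT
  obtain ⟨hint, hconst⟩ := tim _ hE
  have hcal := cal.2.2.2.2.2.2.2.2.2.2.2.2
  -- the Euler density along the family
  have heq : ∀ t : ℝ, ∀ x ∈ slab (Fin 5), eul (H t) x = (‖x‖ ^ 2)⁻¹ *
      EZ (fun i z => Gam (H z.1) z.2 i) (fun z => (gm (H z.1 z.2))⁻¹)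
        (fun z => sd (H z.1 z.2)) (t, x) :=
    fun t x hx => heul (t, x) (slabUZ hx t)
  have hder : ∀ t : ℝ, ∫ x in slab (Fin 5), (‖x‖ ^ 2)⁻¹ * dr vt
      (EZ (fun i z => Gam (H z.1) z.2 i) (fun z => (gm (H z.1 z.2))⁻¹)
        (fun z => sd (H z.1 z.2))) (t, x) = 0 := by
    intro t
    have hb : ∀ i, ContDiffOn ℝ ∞ (fun x : E5 => BZ (fun i z => Gam (H z.1) z.2 i)
        (fun z => (gm (H z.1 z.2))⁻¹) (fun z => sd (H z.1 z.2)) i (t, x)) (Om (Fin 5)) :=
      fun i => (hcal _ (hB i) t).1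
    have hb' : ∀ i, ∀ x ∈ Om (Fin 5), fderiv ℝ (fun x : E5 => BZ (fun i z => Gam (H z.1) z.2 i)
        (fun z => (gm (H z.1 z.2))⁻¹) (fun z => sd (H z.1 z.2)) i (t, x)) x (eb i) =
        dr (vx i) (BZ (fun i z => Gam (H z.1) z.2 i) (fun z => (gm (H z.1 z.2))⁻¹)
          (fun z => sd (H z.1 z.2)) i) (t, x) :=
      fun i x hx => (hcal _ (hB i) t).2 x hx (eb i)
    have hd := (div (fun i x => BZ (fun i z => Gam (H z.1) z.2 i)
        (fun z => (gm (H z.1 z.2))⁻¹) (fun z => sd (H z.1 z.2)) i (t, x)) hb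
      (fun x hx => htan (t, x) ⟨mem_univ _, hx⟩)).2
    have hcong : ∀ x ∈ slab (Fin 5), (‖x‖ ^ 2)⁻¹ * dr vt
        (EZ (fun i z => Gam (H z.1) z.2 i) (fun z => (gm (H z.1 z.2))⁻¹)
          (fun z => sd (H z.1 z.2))) (t, x) =
        4 * ((‖x‖ ^ 2)⁻¹ * ∑ i, fderiv ℝ ((fun (i : Fin 5) (x : E5) =>
          BZ (fun i z => Gam (H z.1) z.2 i)
          (fun z => (gm (H z.1 z.2))⁻¹) (fun z => sd (H z.1 z.2)) i (t, x)) i) x (eb i)) := by
      intro x hx
      have hz := slabUZ hx t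
      have e1 := trt _ _ _ _ hT (t, x) hz
      have e2 := trd _ _ _ _ hT (t, x) hz
      have e3 : (∑ i, fderiv ℝ ((fun (i : Fin 5) (x : E5) =>
          BZ (fun i z => Gam (H z.1) z.2 i)
          (fun z => (gm (H z.1 z.2))⁻¹) (fun z => sd (H z.1 z.2)) i (t, x)) i) x (eb i)) =
          ∑ i, dr (vx i) (BZ (fun i z => Gam (H z.1) z.2 i) (fun z => (gm (H z.1 z.2))⁻¹)
          (fun z => sd (H z.1 z.2)) i) (t, x) :=
        Finset.sum_congr rfl fun i _ => hb' i x (slabOm hx)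
      rw [e3, e2, e1]
      ring
    rw [setIntegral_congr_fun slabMeas hcong, integral_const_mul, hd, mul_zero]
  have hc := hconst hder 0 (Real.pi / 2)
  constructor
  · rw [← hH0]
    exact (hint 0).congr_fun (fun x hx => (heq 0 x hx).symm) slabMeas
  · rw [← hH0, ← hH1, setIntegral_congr_fun slabMeas (heq 0),
      setIntegral_congr_fun slabMeas (heq (Real.pi / 2))]
    exact hc

end Pool.Agent.GBS.H10
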