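import Pool.Agent.GBS.StmtsB

/-!
# GBS squad, row FRA: the Gauss-Bonnet density in an orthonormal frame
-/

set_option autoImplicit false

noncomputable section

open scoped ContDiff Topology RealInnerProductSpace
open Set MeasureTheory Matrix

namespace Pool.Agent.GBS.H10

open Pool.Agent.RF Pool.Agent.MVS Pool.Agent.GBS

/-- the full contraction as a linear map -/
def ctrL (u : Fin 5 → ℝ) : (Fin 5 → Fin 5 → Fin 5 → Fin 5 → ℝ) →ₗ[ℝ] ℝ where
  toFun := ctr u
  map_add' := by
    intro S T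
    simp only [ctr, Pi.add_apply, mul_add, Finset.sum_add_distrib]
  map_smul' := by
    intro c S
    simp only [ctr, Pi.smul_apply, smul_eq_mul, RingHom.id_apply, Finset.mul_sum]
    refine Finset.sum_congr rfl fun i _ => Finset.sum_congr rfl fun j _ =>
      Finset.sum_congr rfl fun k _ => Finset.sum_congr rfl fun l _ => ?_
    ring

theorem ctrL_apply (u : Fin 5 → ℝ) (T : Fin 5 → Fin 5 → Fin 5 → Fin 5 → ℝ) :
    ctrL u T = ctr u T := rfl

/-- linearity of the contraction for a fourfold sum -/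
theorem ctr_sum4 (u : Fin 5 → ℝ) (c : Fin 5 → Fin 5 → Fin 5 → Fin 5 → ℝ)
    (f : Fin 5 → Fin 5 → Fin 5 → Fin 5 → Fin 5 → Fin 5 → Fin 5 → Fin 5 → ℝ)
    (T : Fin 5 → Fin 5 → Fin 5 → Fin 5 → ℝ)
    (hT : ∀ i j k l, T i j k l = ∑ a, ∑ b, ∑ d, ∑ e, c a b d e * f a b d e i j k l) :
    ctr u T = ∑ a, ∑ b, ∑ d, ∑ e, c a b d e * ctr u (f a b d e) := by
  have h : T = ∑ a, ∑ b, ∑ d, ∑ e, c a b d e • f a b d e := by
    funext i j k l
    rw [hT i j k l]
    simp only [Finset.sum_apply, Pi.smul_apply, smul_eq_mul]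
  rw [← ctrL_apply, h]
  simp only [map_sum, map_smul, smul_eq_mul, ctrL_apply]

theorem sandwich (E A : M5) (a b : Fin 5) :
    (E * A * Eᵀ) a b = ∑ p, ∑ q, A p q * (E a p * E b q) := by
  simp only [Matrix.mul_apply, Matrix.transpose_apply, Finset.sum_mul]
  rw [Finset.sum_comm]
  refine Finset.sum_congr rfl fun p _ => Finset.sum_congr rfl fun q _ => ?_
  ring

theorem prod_sum4 (p q : Fin 5 → Fin 5 → ℝ) :
    (∑ a, ∑ b, p a b) * (∑ d, ∑ e, q d e) = ∑ a, ∑ b, ∑ d, ∑ e, p a b * q d e := by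
  rw [Finset.sum_mul]
  refine Finset.sum_congr rfl fun a _ => ?_
  rw [Finset.sum_mul]
  refine Finset.sum_congr rfl fun b _ => ?_
  rw [Finset.mul_sum]
  refine Finset.sum_congr rfl fun d _ => ?_
  rw [Finset.mul_sum]

/-- the Pfaffian of transformed matrices -/
theorem Pf_sandwich (u : Fin 5 → ℝ) (E A B : M5) (D : ℝ) (v : Fin 5 → ℝ)
    (hE : ∀ α β γ δ : Fin 5, (ctr u fun a b c d => E a α * E b β * E c γ * E d δ) =
      D * eps v α β γ δ) :
    Pf u (E * A * Eᵀ) (E * B * Eᵀ) = D * ctr v fun α β γ δ => A α β * B γ δ := by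
  have h := ctr_sum4 u (fun p q r s => A p q * B r s)
    (fun p q r s a b c d => E a p * E b q * E c r * E d s)
    (fun a b c d => (E * A * Eᵀ) a b * (E * B * Eᵀ) c d) (by
      intro a b c d
      rw [sandwich, sandwich, prod_sum4]
      refine Finset.sum_congr rfl fun p _ => Finset.sum_congr rfl fun q _ =>
        Finset.sum_congr rfl fun r _ => Finset.sum_congr rfl fun s _ => ?_
      ring)
  unfold Pf
  rw [h]
  simp only [hE]
  unfold ctr
  rw [Finset.mul_sum]
  refine Finset.sum_congr rfl fun p _ => ?_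
  rw [Finset.mul_sum]
  refine Finset.sum_congr rfl fun q _ => ?_
  rw [Finset.mul_sum]
  refine Finset.sum_congr rfl fun r _ => ?_
  rw [Finset.mul_sum]
  refine Finset.sum_congr rfl fun s _ => ?_
  ring

/-- the Pfaffian is bilinear -/
theorem Pf_sum (u : Fin 5 → ℝ) (c c' : Fin 5 → Fin 5 → ℝ) (S T : Fin 5 → Fin 5 → M5) :
    Pf u (∑ m, ∑ n, c m n • S m n) (∑ r, ∑ s, c' r s • T r s) =
      ∑ m, ∑ n, ∑ r, ∑ s, (c m n * c' r s) * Pf u (S m n) (T r s) := by
  unfold Pf
  refine ctr_sum4 u (fun m n r s => c m n * c' r s)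
    (fun m n r s a b d e => S m n a b * T r s d e) _ ?_
  intro a b d e
  simp only [Matrix.sum_apply, Matrix.smul_apply, smul_eq_mul]
  rw [prod_sum4]
  refine Finset.sum_congr rfl fun p _ => Finset.sum_congr rfl fun q _ =>
    Finset.sum_congr rfl fun r _ => Finset.sum_congr rfl fun s _ => ?_
  ring

theorem fra (khf : KhfStmt) (ept : EptStmt) (eva : EvaStmt) (emx : EmxStmt) : FraStmt := by
  intro G x F hG hx hF
  obtain ⟨-, hK, hsk1, hsk2, -, hS⟩ := khf G x F hG hx hF
  obtain ⟨-, -, -, -, -, hdet, -, -⟩ := emx G x F hG hx hF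
  have hdet0 : (Em x F).det ≠ 0 := by
    intro h0
    rw [h0, abs_zero, zero_mul] at hdet
    exact zero_ne_one hdet
  have hep1 := fun α β γ δ => (ept G x F hG hx hF α β γ δ).1
  have hep2 := fun α β γ δ => (ept G x F hG hx hF α β γ δ).2
  -- the inner contraction
  have hin : ∀ m n r s : Fin 5,
      Pf (cf x) (Em x F * Matrix.of (fun b a => Kh G x F m n a b) * (Em x F)ᵀ)
        (Em x F * Matrix.of (fun b a => Kh G x F r s a b) * (Em x F)ᵀ) =
      (Em x F).det * (4 * ∑ p, (
        Kh G x F m n (pr p).1.succ (pr p).2.succ * Kh G x F r s (ps p).1.succ (ps p).2.succ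
        + Kh G x F m n (ps p).1.succ (ps p).2.succ
          * Kh G x F r s (pr p).1.succ (pr p).2.succ)) := by
    intro m n r s
    rw [Pf_sandwich (cf x) (Em x F) _ _ _ _ hep1]
    have h := eva (fun α β => Kh G x F m n α β) (fun α β => Kh G x F r s α β)
      (fun i j => hsk2 m n i j) (fun i j => hsk2 r s i j)
    rw [← h]
    have h3 : (fun α β γ δ => (Matrix.of (fun b a => Kh G x F m n a b)) α β *
        (Matrix.of (fun b a => Kh G x F r s a b)) γ δ) =
        fun α β γ δ => Kh G x F m n α β * Kh G x F r s γ δ := by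
      funext α β γ δ
      rw [Matrix.of_apply, Matrix.of_apply, hsk2 m n β α, hsk2 r s δ γ]
      ring
    rw [h3]
  -- the outer contraction
  have hout : (‖x‖ ^ 2)⁻¹ * (ctr (cf x) fun i j k l => Pf (cf x) (Sm G x i j) (Sm G x k l)) =
      ctr (Pi.single 0 1) fun m n r s => 4 * ∑ p, (
        Kh G x F m n (pr p).1.succ (pr p).2.succ * Kh G x F r s (ps p).1.succ (ps p).2.succ
        + Kh G x F m n (ps p).1.succ (ps p).2.succ
          * Kh G x F r s (pr p).1.succ (pr p).2.succ) := by
    rw [ctr_sum4 (cf x) (fun m n r s =>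
      Pf (cf x) (Em x F * Matrix.of (fun b a => Kh G x F m n a b) * (Em x F)ᵀ)
        (Em x F * Matrix.of (fun b a => Kh G x F r s a b) * (Em x F)ᵀ))
      (fun m n r s i j k l => (Em x F)⁻¹ m i * (Em x F)⁻¹ n j * (Em x F)⁻¹ r k *
        (Em x F)⁻¹ s l) _ (by
        intro i j k l
        rw [hS i j, hS k l, Pf_sum]
        refine Finset.sum_congr rfl fun p _ => Finset.sum_congr rfl fun q _ =>
          Finset.sum_congr rfl fun r _ => Finset.sum_congr rfl fun s _ => ?_
        ring)]
    rw [Finset.mul_sum]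
    refine Finset.sum_congr rfl fun m _ => ?_
    rw [Finset.mul_sum]
    refine Finset.sum_congr rfl fun n _ => ?_
    rw [Finset.mul_sum]
    refine Finset.sum_congr rfl fun r _ => ?_
    rw [Finset.mul_sum]
    refine Finset.sum_congr rfl fun s _ => ?_
    rw [hin m n r s, mul_left_comm, hep2 m n r s, mul_mul_mul_comm, mul_inv_cancel₀ hdet0,
      one_mul, mul_comm]
  -- the contraction in the frame
  have hfin : (ctr (Pi.single 0 1) fun m n r s => 4 * ∑ p, (
        Kh G x F m n (pr p).1.succ (pr p).2.succ * Kh G x F r s (ps p).1.succ (ps p).2.succ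
        + Kh G x F m n (ps p).1.succ (ps p).2.succ
          * Kh G x F r s (pr p).1.succ (pr p).2.succ)) = E4 (Kf G x F) := by
    have h1 : (fun m n r s : Fin 5 => 4 * ∑ p, (
        Kh G x F m n (pr p).1.succ (pr p).2.succ * Kh G x F r s (ps p).1.succ (ps p).2.succ
        + Kh G x F m n (ps p).1.succ (ps p).2.succ
          * Kh G x F r s (pr p).1.succ (pr p).2.succ)) =
        ∑ p, ((4 : ℝ) • (fun m n r s : Fin 5 => Kh G x F m n (pr p).1.succ (pr p).2.succ *
            Kh G x F r s (ps p).1.succ (ps p).2.succ) +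
          (4 : ℝ) • (fun m n r s : Fin 5 => Kh G x F m n (ps p).1.succ (ps p).2.succ *
            Kh G x F r s (pr p).1.succ (pr p).2.succ)) := by
      funext m n r s
      simp only [Finset.sum_apply, Pi.add_apply, Pi.smul_apply, smul_eq_mul, Finset.mul_sum,
        mul_add]
    have h2 : ∀ P Q : Fin 4 × Fin 4,
        (ctr (Pi.single 0 1) fun m n r s : Fin 5 => Kh G x F m n P.1.succ P.2.succ *
            Kh G x F r s Q.1.succ Q.2.succ) =
          4 * ∑ q, (kk (Kf G x F) (pr q) P * kk (Kf G x F) (ps q) Q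
            + kk (Kf G x F) (ps q) P * kk (Kf G x F) (pr q) Q) := by
      intro P Q
      rw [eva (fun m n => Kh G x F m n P.1.succ P.2.succ)
        (fun r s => Kh G x F r s Q.1.succ Q.2.succ) (fun i j => hsk1 i j _ _)
        (fun i j => hsk1 i j _ _)]
      simp only [hK, kk]
    rw [h1, ← ctrL_apply, map_sum]
    simp only [map_add, map_smul, smul_eq_mul, ctrL_apply, h2]
    unfold E4
    rw [Finset.sum_comm, Finset.mul_sum]
    refine Finset.sum_congr rfl fun p _ => ?_
    rw [Finset.mul_sum, Finset.mul_sum, Finset.mul_sum, Finset.mul_sum, Finset.mul_sum,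
      ← Finset.sum_add_distrib]
    refine Finset.sum_congr rfl fun q _ => ?_
    ring
  unfold eul
  rw [mul_left_comm, hout, hfin]

end Pool.Agent.GBS.H10
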